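import Pool.Agent.W169.HF.Lap1
import Pool.Agent.W169.HF.DefsL

/-!
# Project HF (helper169): the comparison from the Laplace method
-/

set_option autoImplicit false

open Complex MeasureTheory Filter Topology Set
open scoped ComplexConjugate

namespace Pool.Agent.W959.HF

open Pool.Agent.W169.HF

lemma ww_norm (t : ℝ) (g : ℝ → ℂ) (x u : ℝ) :
    ‖ww t g x u‖ = Real.exp (x * u / (2 * t) - u ^ 2 / (4 * t)) * ‖g u‖ := by
  unfold ww
  rw [norm_mul, Complex.norm_real, Real.norm_of_nonneg (Real.exp_pos _).le]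

lemma ww_norm_shift (t : ℝ) (g : ℝ → ℂ) (x u : ℝ) :
    ‖ww t g x u‖ = Real.exp (x * u / (2 * t)) * ‖ww t g 0 u‖ := by
  rw [ww_norm, ww_norm, ← mul_assoc, ← Real.exp_add]
  congr 2
  ring

theorem lfin_of (h1 : S_LINT) (h4 : S_LMAIN) : S_LAP := by
  intro K a η hK ha hη
  obtain ⟨t1, ℓ0, ht1, ht1K, hmain⟩ := h4 K a η (1 / 100) hK ha hη (by norm_num)
  refine ⟨t1, max ℓ0 0, ht1, ?_⟩
  intro ℓ t g P hRP ht htt hℓ hη2
  have hℓre : ℓ ≤ (P a).re := hRP.re
  have hℓ0 : ℓ0 ≤ ℓ := (le_max_left _ _).trans hℓ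
  have hRP' : RP K a (P a).re g P :=
    ⟨hRP.cont, hRP.der, hRP.ne, hRP.im, hRP.lip, le_rfl, hRP.left⟩
  have hη3 : 2 * a + η ≤ 2 * t * (P a).re :=
    hη2.trans (mul_le_mul_of_nonneg_left hℓre (by positivity))
  have hM := hmain (P a).re t g P hRP' ht htt rfl (hℓ0.trans hℓre) hη3
  have hI := h1 K a ℓ t g P hK ha hRP ht (htt.trans ht1K)
  have hint : ∀ x : ℝ, IntegrableOn (ww t g x) (Ioi 0) := fun x => (hI x).1
  refine ⟨fun x => hint x, ?_⟩
  intro x hx
  have hhle : ∀ y : ℝ, ‖hh t g y‖ ≤ ∫ u in Ioi (0 : ℝ), ‖ww t g y u‖ := by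
    intro y
    exact norm_integral_le_integral_norm (ww t g y)
  rcases le_or_gt x t with hxt | hxt
  · -- strict monotonicity of the squared norm
    obtain ⟨D, hD⟩ : ∃ D : ℝ → ℂ, D = fun y => ∫ u in Ioi (0 : ℝ), ((u / (2 * t) : ℝ) : ℂ) * ww t g y u :=
      ⟨_, rfl⟩
    have hder : ∀ y : ℝ, HasDerivAt (hh t g) (D y) y := by
      intro y; rw [hD]; exact (hI y).2.2
    have hsq : ∀ y : ℝ, HasDerivAt (fun y : ℝ => ‖hh t g y‖ ^ 2) (2 * (D y * conj (hh t g y)).re) y := by
      intro y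
      have h := (hder y).norm_sq
      refine h.congr_deriv ?_
      congr 1
    have hpos : ∀ y : ℝ, -t ≤ y → 0 < 2 * (D y * conj (hh t g y)).re := by
      intro y hy
      obtain ⟨c, W, hc, hW, hhW, -, -, hmom⟩ := hM y hy
      have hWp : 0 < ‖W‖ := norm_pos_iff.2 hW
      have hcp : 0 < c := by linarith
      have hhlow : 99 / 100 * ‖W‖ ≤ ‖hh t g y‖ := by
        have h2 : ‖W‖ ≤ ‖hh t g y‖ + ‖hh t g y - W‖ := by
          have h3 : W = hh t g y - (hh t g y - W) := by ring
          calc ‖W‖ = ‖hh t g y - (hh t g y - W)‖ := by rw [← h3]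
            _ ≤ _ := norm_sub_le _ _
        linarith
      have hDy : D y = ((1 / (2 * t) : ℝ) : ℂ) * ((c : ℂ) * hh t g y +
          ∫ u in Ioi (0 : ℝ), ((u - c : ℝ) : ℂ) * ww t g y u) := by
        have hi2 : IntegrableOn (fun u : ℝ => (c : ℂ) * ww t g y u) (Ioi 0) := (hint y).const_mul _
        have hi3 : IntegrableOn (fun u : ℝ => ((u - c : ℝ) : ℂ) * ww t g y u) (Ioi 0) := by
          refine (((hI y).2.1).sub hi2).congr (Eventually.of_forall fun u => ?_)
          simp only [Pi.sub_apply]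
          push_cast
          ring
        have e1 : (c : ℂ) * hh t g y = ∫ u in Ioi (0 : ℝ), (c : ℂ) * ww t g y u := by
          rw [integral_const_mul]
          rfl
        rw [hD, e1, ← integral_add hi2 hi3, ← integral_const_mul]
        refine integral_congr_ae (Eventually.of_forall fun u => ?_)
        simp only
        push_cast
        ring
      obtain ⟨J, hJ⟩ : ∃ J : ℂ, J = ∫ u in Ioi (0 : ℝ), ((u - c : ℝ) : ℂ) * ww t g y u := ⟨_, rfl⟩
      rw [← hJ] at hmom hDy
      have e2 : (D y * conj (hh t g y)).re = (1 / (2 * t)) * (c * ‖hh t g y‖ ^ 2 + (J * conj (hh t g y)).re) := by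
        have e3 : D y * conj (hh t g y) = ((1 / (2 * t) : ℝ) : ℂ) *
            ((c : ℂ) * (hh t g y * conj (hh t g y)) + J * conj (hh t g y)) := by
          rw [hDy]; ring
        rw [e3, Complex.mul_conj, Complex.normSq_eq_norm_sq, Complex.re_ofReal_mul, Complex.add_re,
          Complex.re_ofReal_mul, Complex.ofReal_re]
      have e4 : -(1 / 100 * c * ‖W‖ * ‖hh t g y‖) ≤ (J * conj (hh t g y)).re := by
        have h5 : |(J * conj (hh t g y)).re| ≤ ‖J‖ * ‖hh t g y‖ := by
          refine (Complex.abs_re_le_norm _).trans ?_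
          rw [norm_mul, RCLike.norm_conj]
        have h6 : ‖J‖ * ‖hh t g y‖ ≤ 1 / 100 * c * ‖W‖ * ‖hh t g y‖ :=
          mul_le_mul_of_nonneg_right hmom (norm_nonneg _)
        linarith [neg_abs_le (J * conj (hh t g y)).re]
      rw [e2]
      have hhp : 0 < ‖hh t g y‖ := by linarith [mul_pos (by norm_num : (0 : ℝ) < 99 / 100) hWp]
      have h7 : 0 < c * ‖hh t g y‖ ^ 2 + (J * conj (hh t g y)).re := by
        have h8 : 0 < c * ‖hh t g y‖ * (‖hh t g y‖ - 1 / 100 * ‖W‖) := by
          apply mul_pos (mul_pos hcp hhp)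
          linarith
        nlinarith
      positivity
    have hmono : StrictMonoOn (fun y : ℝ => ‖hh t g y‖ ^ 2) (Icc (-t) t) := by
      apply strictMonoOn_of_deriv_pos (convex_Icc _ _)
      · exact fun y _ => (hsq y).continuousAt.continuousWithinAt
      · intro y hy
        rw [interior_Icc] at hy
        rw [(hsq y).deriv]
        exact hpos y hy.1.le
    have h9 := hmono (show -x ∈ Icc (-t) t from ⟨by linarith, by linarith⟩)
      (show x ∈ Icc (-t) t from ⟨by linarith, hxt⟩) (by linarith)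
    exact lt_of_pow_lt_pow_left₀ 2 (norm_nonneg _) h9
  · obtain ⟨c0, W0, -, hW0, -, hI0, hL0, -⟩ := hM 0 (by linarith)
    obtain ⟨c1, W1, -, hW1, hh1, hI1, -, -⟩ := hM x (by linarith)
    have hW0p : 0 < ‖W0‖ := norm_pos_iff.2 hW0
    have hW1p : 0 < ‖W1‖ := norm_pos_iff.2 hW1
    have hup : ‖hh t g (-x)‖ ≤ (1 + 1 / 100) * ‖W0‖ := by
      refine (hhle (-x)).trans (le_trans ?_ hI0)
      refine setIntegral_mono_on (hint (-x)).norm (hint 0).norm measurableSet_Ioi ?_
      intro u hu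
      rw [ww_norm_shift t g (-x) u]
      have h2 : Real.exp (-x * u / (2 * t)) ≤ 1 := by
        rw [Real.exp_le_one_iff]
        have hu' : (0 : ℝ) < u := hu
        apply div_nonpos_of_nonpos_of_nonneg
        · nlinarith
        · positivity
      calc Real.exp (-x * u / (2 * t)) * ‖ww t g 0 u‖ ≤ 1 * ‖ww t g 0 u‖ :=
            mul_le_mul_of_nonneg_right h2 (norm_nonneg _)
        _ = ‖ww t g 0 u‖ := one_mul _
    have hsub : Ioi a ⊆ Ioi (0 : ℝ) := Ioi_subset_Ioi (by linarith)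
    have hlow : 5 / 4 * ((1 - 1 / 100) * ‖W0‖) ≤ (1 + 1 / 100) * ‖W1‖ := by
      refine le_trans ?_ hI1
      have h2 : ∫ u in Ioi a, ‖ww t g x u‖ ≤ ∫ u in Ioi (0 : ℝ), ‖ww t g x u‖ := by
        apply setIntegral_mono_set (hint x).norm
        · exact Eventually.of_forall fun u => norm_nonneg _
        · exact Eventually.of_forall hsub
      refine le_trans ?_ h2
      have h3 : 5 / 4 * ((1 - 1 / 100) * ‖W0‖) ≤ 5 / 4 * ∫ u in Ioi a, ‖ww t g 0 u‖ :=
        mul_le_mul_of_nonneg_left hL0 (by norm_num)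
      refine h3.trans ?_
      rw [← integral_const_mul]
      refine setIntegral_mono_on (((hint 0).mono_set hsub).norm.const_mul _)
        ((hint x).mono_set hsub).norm measurableSet_Ioi ?_
      intro u hu
      rw [ww_norm_shift t g x u]
      apply mul_le_mul_of_nonneg_right _ (norm_nonneg _)
      have hu' : a < u := hu
      have h5 : 1 / 4 ≤ x * u / (2 * t) := by
        rw [le_div_iff₀ (by positivity)]
        nlinarith
      have h6 := Real.add_one_le_exp (x * u / (2 * t))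
      linarith
    have hhlow : 99 / 100 * ‖W1‖ ≤ ‖hh t g x‖ := by
      have h2 : ‖W1‖ ≤ ‖hh t g x‖ + ‖hh t g x - W1‖ := by
        have h3 : W1 = hh t g x - (hh t g x - W1) := by ring
        calc ‖W1‖ = ‖hh t g x - (hh t g x - W1)‖ := by rw [← h3]
          _ ≤ _ := norm_sub_le _ _
      linarith
    linarith

end Pool.Agent.W959.HF
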